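import Pool.Agent.Y174.SD.Stm

/-! Semi-invariants are isobaric: the algebraic part. -/

set_option autoImplicit false

open MvPolynomial Pool.Agent.Y174.T Pool.Agent.Y174.SD

namespace Pool.Agent.Y79.OB

section scale

variable {k : Type} [Field k] {σ : Type}

/-- coefficients after a rescaling of the variables -/
theorem coeff_scale (a : σ → k) (Q : MvPolynomial σ k) (μ : σ →₀ ℕ) :
    coeff μ (aeval (fun p => C (a p) * X p : σ → MvPolynomial σ k) Q) =
      (μ.prod fun p e => a p ^ e) * coeff μ Q := by
  classical
  induction Q using MvPolynomial.induction_on' with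
  | monomial ν r =>
    have h1 : aeval (fun p => C (a p) * X p : σ → MvPolynomial σ k) (monomial ν r) =
        monomial ν ((ν.prod fun p e => a p ^ e) * r) := by
      rw [aeval_monomial, MvPolynomial.algebraMap_eq]
      have h2 : (ν.prod fun p e => (C (a p) * X p : MvPolynomial σ k) ^ e) =
          C (ν.prod fun p e => a p ^ e) * monomial ν 1 := by
        rw [monomial_eq, C_1, one_mul, map_finsuppProd, ← Finsupp.prod_mul]
        refine Finsupp.prod_congr fun p _ => ?_
        rw [mul_pow, map_pow]
      rw [h2, ← mul_assoc, ← C_mul, C_mul_monomial, mul_one, mul_comm]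
    rw [h1, coeff_monomial, coeff_monomial]
    split_ifs with h
    · rw [h]
    · rw [mul_zero]
  | add P Q hP hQ => rw [map_add, coeff_add, coeff_add, hP, hQ, mul_add]

end scale

theorem lsub_diag {R : Type} [CommRing R] {n : ℕ} (d : Fin n → R) (e : Fin n →₀ ℕ) (r : R) :
    lsub (Matrix.diagonal d) (monomial e r) = monomial e (r * ∏ c, d c ^ e c) := by
  have h1 : ∀ c : Fin n, ∑ i, C (Matrix.diagonal d i c) * (X i : MvPolynomial (Fin n) R) =
      C (d c) * X c := by
    intro c
    rw [Finset.sum_eq_single c]
    · rw [Matrix.diagonal_apply_eq]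
    · intro b _ hb
      rw [Matrix.diagonal_apply_ne _ hb, C_0, zero_mul]
    · intro h
      exact absurd (Finset.mem_univ _) h
  rw [lsub, aeval_monomial, MvPolynomial.algebraMap_eq]
  simp only [h1]
  rw [Finsupp.prod_fintype _ _ (fun i => pow_zero _), monomial_eq,
    Finsupp.prod_fintype _ _ (fun i => pow_zero _), C_mul, map_prod, mul_assoc,
    ← Finset.prod_mul_distrib]
  congr 1
  refine Finset.prod_congr rfl fun c _ => ?_
  rw [mul_pow, map_pow]

theorem trans_diag {R : Type} [CommRing R] {n m : ℕ} (d : Fin n → R) (c : Fin n × Ex n m → R)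
    (p : Fin n × Ex n m) : trans (Matrix.diagonal d) c p = c p * ∏ i, d i ^ p.2.1 i := by
  classical
  rw [Pool.Agent.Y174.SD.trans, fm, map_sum, coeff_sum, Finset.sum_eq_single p.2]
  · rw [lsub_diag, coeff_monomial, if_pos rfl]
  · intro b _ hb
    rw [lsub_diag, coeff_monomial, if_neg]
    intro h
    exact hb (Subtype.ext h)
  · intro h
    exact absurd (Finset.mem_univ _) h

/-- semi-invariants of weight `W` are isobaric of weight `W` in each variable -/
theorem weight_eq {k : Type} [Field k] [Infinite k] {n m W : ℕ} {Q : Cf k n m}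
    (hQ : SemiInv Q W) (i0 : Fin n) (μ : Fin n × Ex n m →₀ ℕ) (hμ : coeff μ Q ≠ 0) :
    ∑ p, μ p * p.2.1 i0 = W := by
  classical
  have h1 : ∀ l : k, l ≠ 0 → l ^ (∑ p, μ p * p.2.1 i0) = l ^ W := by
    intro l hl
    have hdet : (Matrix.diagonal (Function.update (1 : Fin n → k) i0 l)).det = l := by
      rw [Matrix.det_diagonal, Finset.prod_update_of_mem (Finset.mem_univ i0)]
      simp
    have h2 := hQ (Matrix.diagonal (Function.update 1 i0 l)) (by rw [hdet]; exact hl)
    rw [hdet] at h2
    have h3 : act (Matrix.diagonal (Function.update (1 : Fin n → k) i0 l)) Q =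
        aeval (fun p => C (l ^ (p.2.1 i0)) * X p : Fin n × Ex n m → Cf k n m) Q := by
      rw [act]
      congr 2
      funext p
      rw [Matrix.diagonal_map (map_zero C), trans_diag, mul_comm]
      congr 1
      rw [Finset.prod_eq_single i0]
      · rw [Function.update_self, map_pow]
      · intro b _ hb
        rw [Function.update_of_ne hb, Pi.one_apply, map_one, one_pow]
      · intro h
        exact absurd (Finset.mem_univ _) h
    rw [h3] at h2
    have h4 := congrArg (coeff μ) h2
    rw [coeff_scale, coeff_C_mul] at h4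
    have h5 := mul_right_cancel₀ hμ h4
    rw [← h5, Finsupp.prod_fintype _ _ (fun i => pow_zero _), ← Finset.prod_pow_eq_pow_sum]
    refine Finset.prod_congr rfl fun p _ => ?_
    rw [← pow_mul, mul_comm]
  have h6 : (Polynomial.X : Polynomial k) * Polynomial.X ^ (∑ p, μ p * p.2.1 i0) =
      Polynomial.X * Polynomial.X ^ W := by
    apply Polynomial.funext
    intro l
    rw [Polynomial.eval_mul, Polynomial.eval_mul, Polynomial.eval_X, Polynomial.eval_pow,
      Polynomial.eval_pow, Polynomial.eval_X]
    by_cases hl : l = 0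
    · rw [hl, zero_mul, zero_mul]
    · rw [h1 l hl]
  have h7 := mul_left_cancel₀ Polynomial.X_ne_zero h6
  have h8 := congrArg Polynomial.natDegree h7
  rwa [Polynomial.natDegree_X_pow, Polynomial.natDegree_X_pow] at h8

end Pool.Agent.Y79.OB
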