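import Pool.Agent.Y174.OB.Stm
import Pool.Agent.Y79.OB.IsoA

/-! Semi-invariants are isobaric: values. -/

set_option autoImplicit false
set_option linter.overlappingInstances false
set_option linter.unusedSectionVars false

open FF MvPolynomial IntermediateField Pool.Agent.W619.PQ Pool.Agent.W619.PL Pool.Agent.W619.TW
  Pool.Agent.W603.LV Pool.Agent.W619.Y Pool.Agent.Y174.T Pool.Agent.Y174 Pool.Agent.Y174.SD

namespace Pool.Agent.Y79.OB

section

variable {k K : Type} [Field k] [Field K] [Algebra k K]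

theorem geR_sum {v : Place k K} {ι : Type*} (s : Finset ι) (c : ℝ) (f : ι → K)
    (h : ∀ i ∈ s, GeR v c (f i)) : GeR v c (∑ i ∈ s, f i) := by
  have h1 : ∀ f : K, GeR v c f ↔ Ge v ⌈c⌉ f := by
    intro f
    constructor
    · rintro (h | h)
      · exact Or.inl h
      · exact Or.inr (Int.ceil_le.2 h)
    · rintro (h | h)
      · exact Or.inl h
      · exact Or.inr (Int.ceil_le.1 h)
  rw [h1]
  exact Ge.sum _ _ fun i hi => (h1 _).1 (h i hi)

theorem geR_prod {v : Place k K} {ι : Type*} (s : Finset ι) (c : ι → ℝ) (f : ι → K)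
    (h : ∀ i ∈ s, GeR v (c i) (f i)) : GeR v (∑ i ∈ s, c i) (∏ i ∈ s, f i) := by
  classical
  induction s using Finset.induction_on with
  | empty =>
    right
    rw [Finset.prod_empty, v.ord_one]
    simp
  | insert b s hb ih =>
    rw [Finset.prod_insert hb, Finset.sum_insert hb]
    exact (h b (Finset.mem_insert_self _ _)).mul
      (ih fun i hi => h i (Finset.mem_insert_of_mem hi))

end

theorem t_ISO : Pool.Agent.Y174.OB.S_ISO := by
  intro k K _ _ _ _ n m W v i0 θ Q hQ x hx
  rw [aeval_def, eval₂_eq']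
  refine geR_sum _ _ _ fun μ hμ => ?_
  have h1 := weight_eq hQ i0 μ (mem_support_iff.1 hμ)
  have h2 : GeR v 0 (algebraMap k K (coeff μ Q)) := by
    have h : Ge v 0 (algebraMap k K (coeff μ Q)) := Ge.const _
    have := Ge.toR h
    simpa using this
  have h3 := geR_prod Finset.univ (fun p => (μ p : ℝ) * (-(p.2.1 i0 * θ)))
    (fun p => x p ^ μ p) fun p _ => (hx p).pow (μ p)
  refine (h2.mul h3).mono (le_of_eq ?_)
  rw [zero_add, ← h1]
  push_cast
  rw [Finset.sum_mul, ← Finset.sum_neg_distrib]
  refine Finset.sum_congr rfl fun p _ => ?_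
  ring

end Pool.Agent.Y79.OB
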